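import Pool.Agent.H86.DA.Stm

set_option autoImplicit false

/-!
# Project DA (helper86): module FIN (from residues to integers)
-/

namespace Pool.Agent.H61.DA

open Finset Pool.Agent.H86.DA

theorem fin : S_FIN := by
  classical
  intro b K J X ε₁ H hb hε hε1 hH hE
  obtain ⟨M, hM⟩ : ∃ M, M = b ^ K := ⟨_, rfl⟩
  have hM0 : 0 < M := by
    rw [hM]
    positivity
  have hMr : ((b : ℝ) ^ K) = M := by
    rw [hM]
    push_cast
    rfl
  rw [hMr] at hE
  rw [hMr]
  rw [← hM] at hE hH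
  rw [← hM]
  obtain ⟨E, hEd⟩ : ∃ E : Set ℕ, E = {n : ℕ | n < M ∧ ¬ ∃ h ∈ H, ∃ l ≤ J * M, PS b J l ∧ (h + l) % M = n} := ⟨_, rfl⟩
  rw [← hEd] at hE
  have hEf : E.Finite := (Set.finite_lt_nat M).subset fun n hn => by
    rw [hEd] at hn
    exact hn.1
  obtain ⟨F, hF⟩ : ∃ F : Finset ℕ, F = hEf.toFinset := ⟨_, rfl⟩
  have hFc : (F.card : ℝ) ≤ ε₁ * M := by
    have h1 : F.card = E.ncard := by
      rw [hF, Set.ncard_eq_toFinset_card E hEf]
    rw [h1]
    exact hE
  have hsub : {N : ℕ | N ≤ X ∧ ¬ ∃ h ∈ H, ∃ l, PS b (J + X / M) l ∧ N = h + l} ⊆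
      ((range ((J + 3) * M) ∪ (F ×ˢ range (X / M + 1)).image fun p => p.1 + M * p.2 : Finset ℕ) : Set ℕ) := by
    rintro N ⟨hNX, hN⟩
    rw [Finset.mem_coe, mem_union]
    by_cases h1 : N < (J + 3) * M
    · exact Or.inl (mem_range.2 h1)
    · right
      rw [mem_image]
      refine ⟨(N % M, N / M), ?_, Nat.mod_add_div N M⟩
      rw [mem_product]
      refine ⟨?_, ?_⟩
      · rw [hF, Set.Finite.mem_toFinset, hEd]
        refine ⟨Nat.mod_lt _ hM0, ?_⟩
        rintro ⟨h, hh, l, hl, ⟨w, hw1, hw2⟩, hmod⟩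
        apply hN
        have h2 : h + l ≤ N := by
          have h3 := hH h hh
          have h4 : (J + 3) * M = 3 * M + J * M := by ring
          omega
        have h3 : M ∣ N - (h + l) := (Nat.modEq_iff_dvd' h2).1 hmod
        obtain ⟨j, hj⟩ := h3
        refine ⟨h, hh, l + M * j, ⟨w ++ List.replicate j K, ?_, ?_⟩, by omega⟩
        · rw [List.length_append, List.length_replicate]
          have h4 : j ≤ X / M := by
            rw [Nat.le_div_iff_mul_le hM0, mul_comm]
            omega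
          omega
        · rw [List.map_append, List.sum_append, ← hw2, List.map_replicate, List.sum_replicate, smul_eq_mul, ← hM]
          ring
      · rw [mem_range]
        have h2 := Nat.div_le_div_right (c := M) hNX
        exact Nat.lt_succ_of_le h2
  have h1 := Set.ncard_le_ncard hsub (Finset.finite_toSet _)
  rw [Set.ncard_coe_finset] at h1
  have h2 : ((range ((J + 3) * M) ∪ (F ×ˢ range (X / M + 1)).image fun p => p.1 + M * p.2 : Finset ℕ)).card ≤
      (J + 3) * M + F.card * (X / M + 1) := by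
    refine (card_union_le _ _).trans ?_
    rw [card_range]
    refine Nat.add_le_add_left (card_image_le.trans ?_) _
    rw [card_product, card_range]
  have h3 : (({N : ℕ | N ≤ X ∧ ¬ ∃ h ∈ H, ∃ l, PS b (J + X / M) l ∧ N = h + l} : Set ℕ).ncard : ℝ) ≤
      (J + 3) * M + F.card * ((X / M : ℕ) + 1) := by exact_mod_cast h1.trans h2
  have hMR : (0 : ℝ) < M := by exact_mod_cast hM0
  have h4 : ((X / M : ℕ) : ℝ) * M ≤ X := by exact_mod_cast Nat.div_mul_le_self X M
  have h5 : (F.card : ℝ) * ((X / M : ℕ) + 1) ≤ ε₁ * M * ((X / M : ℕ) + 1) :=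
    mul_le_mul_of_nonneg_right hFc (by positivity)
  have h6 : ε₁ * M * ((X / M : ℕ) + 1) ≤ ε₁ * X + M := by
    have h7 : ε₁ * M * ((X / M : ℕ) + 1) = ε₁ * (((X / M : ℕ) : ℝ) * M) + ε₁ * M := by ring
    rw [h7]
    have h8 := mul_le_mul_of_nonneg_left h4 hε
    have h9 : ε₁ * (M : ℝ) ≤ 1 * M := mul_le_mul_of_nonneg_right hε1 hMR.le
    linarith
  refine h3.trans ?_
  linarith

end Pool.Agent.H61.DA
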